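import Pool.Agent.Helper35.YM.StT

/-!
Module GX of project YM (owner helper35): `|∇A|²` with a polynomial weight, constants independent
of the radius.

The weight is `B(t,x) = (1 + (x/T)²)^(-k)`, `x = |F|²`.
-/

set_option autoImplicit false

namespace Pool.Agent.Helper88.YM

open Helper35.PI Helper35.PI2 Helper32.CL Helper35.YM
open scoped ContDiff Manifold Topology ENNReal BigOperators
open MeasureTheory Set Filter

/-! ### The weight -/

private noncomputable def b0 (k : ℕ) (T _t x : ℝ) : ℝ := 1 / (1 + (x / T) ^ 2) ^ k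
private noncomputable def b1 (k : ℕ) (T _t x : ℝ) : ℝ :=
  -(2 * k * x / T ^ 2) / (1 + (x / T) ^ 2) ^ (k + 1)
private noncomputable def b2 (k : ℕ) (T _t x : ℝ) : ℝ :=
  -(2 * k / T ^ 2) / (1 + (x / T) ^ 2) ^ (k + 1)
    + (4 * k * (k + 1) * x ^ 2 / T ^ 4) / (1 + (x / T) ^ 2) ^ (k + 2)

private theorem Dpos (T x : ℝ) : 0 < 1 + (x / T) ^ 2 := by positivity

private theorem hD' (T x : ℝ) : HasDerivAt (fun x : ℝ => 1 + (x / T) ^ 2) (2 * (x / T) * (1 / T)) x := by
  have h := (((hasDerivAt_id x).div_const T).fun_pow 2).const_add 1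
  simpa using h

private theorem wgt (k : ℕ) {T : ℝ} (hT : 0 < T) :
    Wgt (b0 k T) (fun _ _ => 0) (b1 k T) (b2 k T) where
  cB := by
    have e : (fun z : ℝ × ℝ => b0 k T z.1 z.2)
        = fun z : ℝ × ℝ => 1 / (1 + (z.2 / T) ^ 2) ^ k := rfl
    rw [e]
    refine ContDiffOn.div contDiffOn_const ?_ ?_
    · exact ((contDiff_const.add ((contDiff_snd.div_const T).pow 2)).pow k).contDiffOn
    · rintro ⟨t, x⟩ _
      have h := Dpos T x
      positivity
  dt := by
    intro t _ x
    exact hasDerivAt_const t _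
  d1 := by
    intro t _ x
    have h := Dpos T x
    have h1 := (hD' T x).fun_pow k
    have h2 := (hasDerivAt_const x (1 : ℝ)).div h1 (by positivity)
    refine h2.congr_deriv ?_
    unfold b1
    rcases k with _ | k
    · simp
    · simp only [Nat.add_sub_cancel]
      push_cast
      field_simp
      ring
  d2 := by
    intro t _ x
    have h := Dpos T x
    have h1 := (hD' T x).fun_pow (k + 1)
    have h3 : HasDerivAt (fun x : ℝ => -(2 * k * x / T ^ 2)) (-(2 * k / T ^ 2)) x := by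
      have h4 := (((hasDerivAt_id x).const_mul (2 * (k : ℝ))).div_const (T ^ 2)).fun_neg
      simpa using h4
    have h2 := h3.div h1 (by positivity)
    refine h2.congr_deriv ?_
    unfold b2
    simp only [Nat.add_sub_cancel]
    push_cast
    field_simp
    ring
  c2 := by
    have e : (fun z : ℝ × ℝ => b2 k T z.1 z.2)
        = fun z : ℝ × ℝ => -(2 * k / T ^ 2) / (1 + (z.2 / T) ^ 2) ^ (k + 1)
    + (4 * k * (k + 1) * z.2 ^ 2 / T ^ 4) / (1 + (z.2 / T) ^ 2) ^ (k + 2) := rfl
    rw [e]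
    refine ContinuousOn.add (ContinuousOn.div (by fun_prop) (by fun_prop) ?_)
      (ContinuousOn.div (by fun_prop) (by fun_prop) ?_)
    · rintro ⟨t, x⟩ _
      have h := Dpos T x
      positivity
    · rintro ⟨t, x⟩ _
      have h := Dpos T x
      positivity
  nn := fun t _ x => by
    unfold b0
    have h := Dpos T x
    positivity

/-- `|B₁| ≤ (k/T) B` -/
private theorem b1_le (k : ℕ) {T : ℝ} (hT : 0 < T) (t : ℝ) {x : ℝ} (hx : 0 ≤ x) :
    |b1 k T t x| ≤ k / T * b0 k T t x := by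
  have h := Dpos T x
  unfold b1 b0
  rw [neg_div, abs_neg, abs_of_nonneg (by positivity), pow_succ (1 + (x / T) ^ 2) k,
    div_le_iff₀ (by positivity)]
  have e : (k : ℝ) / T * (1 / (1 + (x / T) ^ 2) ^ k) * ((1 + (x / T) ^ 2) ^ k * (1 + (x / T) ^ 2))
      = k / T * (1 + (x / T) ^ 2) := by field_simp
  rw [e]
  have e2 : 2 * (k : ℝ) * x / T ^ 2 = k / T * (2 * (x / T)) := by field_simp
  rw [e2]
  refine mul_le_mul_of_nonneg_left ?_ (by positivity)
  nlinarith [sq_nonneg (x / T - 1)]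

/-- the scalar inequality -/
private theorem scal (n k : ℕ) {T τ x z h Y X g : ℝ} (hT : 0 < T) (h1 : T ≤ τ) (h2 : τ ≤ 2 * T)
    (hz : 0 ≤ z) (hzx : z ≤ x) (hY : 0 ≤ Y) (hX : 0 ≤ X) (hXY : X ≤ Y)
    (hh : h ^ 2 ≤ Y * (x - z)) (t : ℝ) :
    (-X + τ * (10 * X ^ 2 - 2 * g)) * b0 k T t x
      + τ * X * (0 + 2 * n * b1 k T t x + 4 * (b2 k T t x * z) + 4 * (b1 k T t x * h)
        - Y * b0 k T t x)
      ≤ -(2 * (τ * (g * b0 k T t x)) + 1 / 2 * (τ * (X * (Y * b0 k T t x))))
        + (20 + 8 * k + 32 * (k * (k + 1))) * ((T * Y ^ 2 + Y) * b0 k T t x) := by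
  have hx : 0 ≤ x := hz.trans hzx
  have hD := Dpos T x
  obtain ⟨D, hDd⟩ : ∃ D : ℝ, D = 1 + (x / T) ^ 2 := ⟨_, rfl⟩
  have hD0 : 0 < D := by rw [hDd]; exact hD
  obtain ⟨P, hP⟩ : ∃ P : ℝ, P = b0 k T t x := ⟨_, rfl⟩
  have hP' : P = 1 / D ^ k := by rw [hP, hDd]; rfl
  have hP0 : 0 ≤ P := by rw [hP']; positivity
  obtain ⟨β, hβ⟩ : ∃ β : ℝ, β = 2 * k * x / (T ^ 2 * D) := ⟨_, rfl⟩
  obtain ⟨γ, hγ⟩ : ∃ γ : ℝ, γ = 2 * k / (T ^ 2 * D) := ⟨_, rfl⟩
  obtain ⟨δ, hδ⟩ : ∃ δ : ℝ, δ = 4 * k * (k + 1) * x ^ 2 / (T ^ 4 * D ^ 2) := ⟨_, rfl⟩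
  have e1 : b1 k T t x = -β * P := by
    unfold b1
    rw [hP', hβ, ← hDd, pow_succ D k]
    field_simp
  have e2 : b2 k T t x = (-γ + δ) * P := by
    unfold b2
    rw [hP', hγ, hδ, ← hDd, pow_succ D k, pow_add D k 2]
    field_simp
  have hβ0 : 0 ≤ β := by rw [hβ]; positivity
  have hγ0 : 0 ≤ γ := by rw [hγ]; positivity
  have hδ0 : 0 ≤ δ := by rw [hδ]; positivity
  have hs3 : x ^ 3 ≤ T ^ 3 * D ^ 2 := by
    obtain ⟨s, hs⟩ : ∃ s : ℝ, s = x / T := ⟨_, rfl⟩
    have hs0 : 0 ≤ s := by rw [hs]; positivity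
    have hxs : x = T * s := by rw [hs]; field_simp
    have hDs : D = 1 + s ^ 2 := by rw [hDd, hs]
    rw [hxs, hDs, mul_pow]
    refine mul_le_mul_of_nonneg_left ?_ (by positivity)
    nlinarith [sq_nonneg (s - 1), sq_nonneg (s ^ 2 - s), mul_nonneg hs0 hs0, sq_nonneg s,
      mul_nonneg hs0 (sq_nonneg (s - 1)), sq_nonneg (s ^ 2)]
  have A1 : δ * z ≤ 4 * (k * (k + 1)) / T := by
    calc δ * z ≤ δ * x := mul_le_mul_of_nonneg_left hzx hδ0
      _ = 4 * (k * (k + 1)) * x ^ 3 / (T ^ 4 * D ^ 2) := by rw [hδ]; ring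
      _ ≤ 4 * (k * (k + 1)) * (T ^ 3 * D ^ 2) / (T ^ 4 * D ^ 2) := by gcongr
      _ = 4 * (k * (k + 1)) / T := by field_simp
  have A2 : -(T * β * h) ≤ k * (1 + T * Y) := by
    have h3 : (T * β * h) ^ 2 ≤ (k * (1 + T * Y)) ^ 2 := by
      have h4 : h ^ 2 ≤ Y * x := hh.trans (by nlinarith)
      calc (T * β * h) ^ 2 = (T * β) ^ 2 * h ^ 2 := by ring
        _ ≤ (T * β) ^ 2 * (Y * x) := mul_le_mul_of_nonneg_left h4 (by positivity)
        _ = 4 * k ^ 2 * Y * x ^ 3 / (T ^ 2 * D ^ 2) := by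
            rw [hβ]; field_simp; ring
        _ ≤ 4 * k ^ 2 * Y * (T ^ 3 * D ^ 2) / (T ^ 2 * D ^ 2) := by gcongr
        _ = k ^ 2 * (4 * (T * Y)) := by field_simp
        _ ≤ k ^ 2 * (1 + T * Y) ^ 2 := by
            refine mul_le_mul_of_nonneg_left ?_ (by positivity)
            nlinarith [sq_nonneg (1 - T * Y)]
        _ = (k * (1 + T * Y)) ^ 2 := by ring
    have h5 := abs_le_of_sq_le_sq h3 (by positivity)
    have h6 := neg_abs_le (T * β * h)
    linarith
  have hτ : 0 < τ := by linarith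
  have hXY2 : X ^ 2 ≤ Y ^ 2 := by gcongr
  have q1 : 10 * (τ * X ^ 2) ≤ 20 * (T * Y ^ 2) := by
    have : τ * X ^ 2 ≤ (2 * T) * Y ^ 2 := mul_le_mul h2 hXY2 (sq_nonneg X) (by positivity)
    linarith
  have q2 : τ * X ≤ 2 * T * Y := mul_le_mul h2 hXY hX (by positivity)
  have q3 : τ * X * (4 * (δ * z)) ≤ 32 * (k * (k + 1)) * Y := by
    calc τ * X * (4 * (δ * z)) ≤ (2 * T * Y) * (4 * (4 * (k * (k + 1)) / T)) := by
          refine mul_le_mul q2 (by linarith) (by positivity) (by positivity)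
      _ = 32 * (k * (k + 1)) * Y := by field_simp; ring
  have q4 : τ * X * (-(4 * (β * h))) ≤ 8 * k * (Y + T * Y ^ 2) := by
    have e3 : τ * X * (-(4 * (β * h))) = 4 * ((τ * X / T) * (-(T * β * h))) := by
      field_simp
    rw [e3]
    have h7 : τ * X / T ≤ 2 * Y := by
      rw [div_le_iff₀ hT]; linarith
    have h8 : 0 ≤ τ * X / T := by positivity
    have h9 : (τ * X / T) * (-(T * β * h)) ≤ (2 * Y) * (k * (1 + T * Y)) := by
      calc (τ * X / T) * (-(T * β * h)) ≤ (τ * X / T) * (k * (1 + T * Y)) :=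
            mul_le_mul_of_nonneg_left A2 h8
        _ ≤ (2 * Y) * (k * (1 + T * Y)) := mul_le_mul_of_nonneg_right h7 (by positivity)
    calc 4 * ((τ * X / T) * (-(T * β * h))) ≤ 4 * ((2 * Y) * (k * (1 + T * Y))) := by linarith
      _ = 8 * k * (Y + T * Y ^ 2) := by ring
  have q5 : 0 ≤ τ * X * (2 * n * β) := by positivity
  have q6 : 0 ≤ τ * X * (4 * (γ * z)) := by positivity
  have q7 : 0 ≤ τ * (X * Y) := by positivity
  have q8 : 0 ≤ (k : ℝ) * (k + 1) * (T * Y ^ 2) := by positivity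
  rw [e1, e2, ← hP]
  have key : -X + 10 * (τ * X ^ 2) + τ * X * (-(2 * n * β)) + τ * X * (-(4 * (γ * z)))
      + τ * X * (4 * (δ * z)) + τ * X * (-(4 * (β * h))) - τ * (X * Y)
      ≤ -(1 / 2 * (τ * (X * Y))) + (20 + 8 * k + 32 * (k * (k + 1))) * (T * Y ^ 2 + Y) := by
    nlinarith [q1, q3, q4, q5, q6, q7, q8]
  have key2 := mul_le_mul_of_nonneg_right key hP0
  nlinarith [key2]

/-- comparison of weights -/
private theorem pw_mono {N : ℕ} {M : Type} (j : ℕ) {T : ℝ} (hT : 0 < T) (F : M → ℝ → EE N) (q : M)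
    (t : ℝ) : Helper23.YM.pw j T F q t ≤ Helper23.YM.pw j (2 * T) F q t := by
  unfold Helper23.YM.pw
  have h1 : ‖F q t‖ ^ 2 / (2 * T) ≤ ‖F q t‖ ^ 2 / T := by
    apply div_le_div_of_nonneg_left (by positivity) hT
    linarith
  have h2 : 0 ≤ ‖F q t‖ ^ 2 / (2 * T) := by positivity
  gcongr

private theorem pw_nonneg {N : ℕ} {M : Type} (j : ℕ) (T : ℝ) (F : M → ℝ → EE N) (q : M)
    (t : ℝ) : 0 ≤ Helper23.YM.pw j T F q t := by
  unfold Helper23.YM.pw
  positivity

private theorem pw_step {N : ℕ} {M : Type} (k : ℕ) (hk : 1 ≤ k) {T : ℝ} (hT : 0 < T)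
    (F : M → ℝ → EE N) (q : M) (t : ℝ) :
    (1 + ‖F q t‖ ^ 2) * Helper23.YM.pw k T F q t
      ≤ 2 * (1 + T) * Helper23.YM.pw (k - 1) T F q t := by
  unfold Helper23.YM.pw
  obtain ⟨j, rfl⟩ : ∃ j, k = j + 1 := ⟨k - 1, by omega⟩
  rw [Nat.add_sub_cancel]
  obtain ⟨s, hs⟩ : ∃ s : ℝ, s = ‖F q t‖ ^ 2 / T := ⟨_, rfl⟩
  have hs0 : 0 ≤ s := by rw [hs]; positivity
  have hx : ‖F q t‖ ^ 2 = T * s := by rw [hs]; field_simp
  rw [← hs, hx, pow_succ]
  have hD : 0 < 1 + s ^ 2 := by positivity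
  have e : 2 * (1 + T) * (1 / (1 + s ^ 2) ^ j)
      = 2 * (1 + T) * (1 + s ^ 2) * (1 / ((1 + s ^ 2) ^ j * (1 + s ^ 2))) := by
    field_simp
  rw [e]
  refine mul_le_mul_of_nonneg_right ?_ (by positivity)
  nlinarith [sq_nonneg (s - 1), mul_nonneg hT.le hs0, mul_nonneg hT.le (sq_nonneg (s - 1)),
    mul_nonneg hT.le (sq_nonneg s)]

private theorem cpw {N : ℕ} {M : Type} [TopologicalSpace M] (j : ℕ) (T : ℝ) (F : M → ℝ → EE N)
    (hF : CST (fun q t => ‖F q t‖ ^ 2)) : CST (fun q t => Helper23.YM.pw j T F q t) := by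
  unfold Helper23.YM.pw
  have h1 : ContinuousOn (fun z : M × ℝ => (1 + (‖F z.1 z.2‖ ^ 2 / T) ^ 2) ^ j)
      (univ ×ˢ Iio 0) :=
    (continuousOn_const.add ((ContinuousOn.div_const hF T).pow 2)).pow j
  refine ContinuousOn.div continuousOn_const h1 ?_
  rintro ⟨q, t⟩ _
  simp only
  positivity

private theorem slice {M : Type} [TopologicalSpace M] {g : M → ℝ → ℝ} (h : CST g) {t : ℝ}
    (ht : t < 0) : Continuous (fun q => g q t) := by
  have h1 : Continuous (fun q : M => (q, t)) := by fun_prop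
  exact ContinuousOn.comp_continuous h h1 fun q => ⟨mem_univ _, ht⟩

theorem hGX (hWI : Helper23.YM.StWI) (hGB : Helper23.YM.StGB) (hYB : Helper23.YM.StYB)
    (hSF : StSF) (_hMU : StMU) (_hTM : StTM) : StGX := by
  intro n k κ₀ CA hn hκ0 hκ1 hk hCA
  obtain ⟨C₁, hC₁, hYk⟩ := hYB n k κ₀ CA hn hκ0 hκ1 (by omega) hCA
  obtain ⟨C₂, hC₂, hYk1⟩ := hYB n (k - 1) κ₀ CA hn hκ0 hκ1 (by omega) hCA
  obtain ⟨C', hC'⟩ : ∃ C' : ℝ, C' = 20 + 8 * k + 32 * (k * (k + 1)) := ⟨_, rfl⟩
  have hC'0 : 0 < C' := by rw [hC']; positivity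
  refine ⟨C₁ * (1 + 3 / 4 * C') * Real.sqrt 2 ^ n / 2, by positivity, ?_⟩
  intro N M _ _ _ _ _ _ _ F c χ hNS hAY T hT
  obtain ⟨-, -, cY, cA, cX, -, -, hsf⟩ := hSF n N hn M F hNS.mcf
  obtain ⟨cg, hg, hHt⟩ := hGB n N hn M F hNS.mcf
  obtain ⟨u', hu⟩ := hHt (-(2 * T)) (-T) (by linarith)
  have hab : -(2 * T) ≤ -T := by linarith
  have hb : -T < 0 := by linarith
  have hYT := hYk N M F c χ hNS hAY (2 * T) (by linarith)
  have hYT1 := hYk1 N M F c χ hNS hAY (2 * T) (by linarith)
  have hpt : ∀ t ∈ Icc (-(2 * T)) (-T), T ≤ -t ∧ -t ≤ 2 * T ∧ t < 0 := fun t ht =>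
    ⟨by linarith [ht.2], by linarith [ht.1], by linarith [ht.2]⟩
  have hAle : ∀ q, ∀ t < 0, AA (n := n) F q t ≤ yF n F q t := by
    intro q t ht
    have h1 := hAY q t ht
    have h2 := (hsf q t ht).2.1
    nlinarith
  have cp : ∀ (j : ℕ) (T' : ℝ), CST (fun q t => Helper23.YM.pw j T' F q t) := fun j T' =>
    cpw j T' F cX
  have ct : ContinuousOn (fun z : M × ℝ => -z.2) (univ ×ˢ Iio 0) := by fun_prop
  have cd : CST (fun q t => 2 * ((-t) * (Helper23.YM.g2F n F q t * Helper23.YM.pw k T F q t))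
      + 1 / 2 * ((-t) * (AA (n := n) F q t * (yF n F q t * Helper23.YM.pw k T F q t)))) := by
    have h1 : ContinuousOn (fun z : M × ℝ => (-z.2) *
        (Helper23.YM.g2F n F z.1 z.2 * Helper23.YM.pw k T F z.1 z.2)) (univ ×ˢ Iio 0) :=
      ct.mul (ContinuousOn.mul cg (cp k T))
    have h2 : ContinuousOn (fun z : M × ℝ => (-z.2) * (AA (n := n) F z.1 z.2 *
        (yF n F z.1 z.2 * Helper23.YM.pw k T F z.1 z.2))) (univ ×ˢ Iio 0) :=
      ct.mul (ContinuousOn.mul cA (ContinuousOn.mul cY (cp k T)))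
    exact (continuousOn_const.mul h1).add (continuousOn_const.mul h2)
  have cr : CST (fun q t => C' * ((T * yF n F q t ^ 2 + yF n F q t) *
      Helper23.YM.pw k T F q t)) := by
    have h1 : ContinuousOn (fun z : M × ℝ => T * yF n F z.1 z.2 ^ 2 + yF n F z.1 z.2)
        (univ ×ˢ Iio 0) := (continuousOn_const.mul (ContinuousOn.pow cY 2)).add cY
    exact continuousOn_const.mul (h1.mul (cp k T))
  have main := hWI n N hn M F c χ CA hNS (-(2 * T)) (-T) hab hb (b0 k T) (fun _ _ => 0)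
    (b1 k T) (b2 k T) (wgt k hT) continuousOn_const
    (fun q t => (-t) * AA (n := n) F q t) u'
    (fun q t => -AA (n := n) F q t
          + (-t) * (10 * AA (n := n) F q t ^ 2 - 2 * Helper23.YM.g2F n F q t))
    (fun t q => (-t) • Helper23.YM.Ux n F t q) hu
    (fun q t => 2 * ((-t) * (Helper23.YM.g2F n F q t * Helper23.YM.pw k T F q t))
      + 1 / 2 * ((-t) * (AA (n := n) F q t * (yF n F q t * Helper23.YM.pw k T F q t))))
    (fun q t => C' * ((T * yF n F q t ^ 2 + yF n F q t) * Helper23.YM.pw k T F q t))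
    cd cr (1 / 2) (k / T) 0 (by norm_num) (by positivity) le_rfl
    (fun t _ x hx => b1_le k hT t hx)
    ?_ ?_
  · -- conclusion
    have hs2 : Real.sqrt (2 * T) ^ n = Real.sqrt 2 ^ n * Real.sqrt T ^ n := by
      rw [Real.sqrt_mul (by norm_num), mul_pow]
    -- the initial value
    have h0 : Li n F c χ (fun q t => (-t) * AA (n := n) F q t * b0 k T t (‖F q t‖ ^ 2)) (-(2 * T))
        ≤ ENNReal.ofReal (C₁ * Real.sqrt (2 * T) ^ n) := by
      have ht : -(2 * T) < 0 := by linarith
      have h1 := (hYT (-(2 * T)) le_rfl ht).2.1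
      calc Li n F c χ (fun q t => (-t) * AA (n := n) F q t * b0 k T t (‖F q t‖ ^ 2)) (-(2 * T))
          ≤ ∫⁻ q, ENNReal.ofReal (2 * T) * ENNReal.ofReal (yF n F q (-(2 * T)) *
              Helper23.YM.pw k (2 * T) F q (-(2 * T))) ∂muM n F c χ (-(2 * T)) := by
            unfold Li
            refine lintegral_mono fun q => ?_
            rw [← ENNReal.ofReal_mul (by linarith)]
            apply ENNReal.ofReal_le_ofReal
            have h2 := hAle q _ ht
            have h3 := (hsf q _ ht).1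
            have h4 := pw_mono k hT F q (-(2 * T))
            have h5 := pw_nonneg k T F q (-(2 * T))
            have h6 : b0 k T (-(2 * T)) (‖F q (-(2 * T))‖ ^ 2) =
              Helper23.YM.pw k T F q (-(2 * T)) := rfl
            beta_reduce
            rw [h6, neg_neg, mul_assoc]
            exact mul_le_mul_of_nonneg_left (mul_le_mul h2 h4 h5 (h3.trans h2)) (by linarith)
        _ = ENNReal.ofReal (2 * T) * Li n F c χ (fun q t => yF n F q t *
              Helper23.YM.pw k (2 * T) F q t) (-(2 * T)) :=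
            lintegral_const_mul' _ _ ENNReal.ofReal_ne_top
        _ ≤ ENNReal.ofReal (2 * T) * ENNReal.ofReal (C₁ * Real.sqrt (2 * T) ^ n / (2 * T)) := by
            gcongr
        _ = ENNReal.ofReal (C₁ * Real.sqrt (2 * T) ^ n) := by
            rw [← ENNReal.ofReal_mul (by linarith)]
            congr 1
            field_simp
    -- the error term
    have hr : ∀ t ∈ Icc (-(2 * T)) (-T), Li n F c χ (fun q t => C' *
        ((T * yF n F q t ^ 2 + yF n F q t) * Helper23.YM.pw k T F q t)) t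
        ≤ ENNReal.ofReal (C' * (C₁ * Real.sqrt (2 * T) ^ n) * (3 / (4 * T))) := by
      intro t ht
      obtain ⟨t1, t2, t3⟩ := hpt t ht
      obtain ⟨-, k1, k2, -⟩ := hYT t ht.1 t3
      have hmeas : Measurable (fun q => ENNReal.ofReal (C' * T) *
          ENNReal.ofReal (yF n F q t ^ 2 * Helper23.YM.pw k (2 * T) F q t)) := by
        have hc : Continuous (fun q => yF n F q t ^ 2 * Helper23.YM.pw k (2 * T) F q t) :=
          ((slice cY t3).pow 2).mul (slice (cp k (2 * T)) t3)
        exact (ENNReal.measurable_ofReal.comp hc.measurable).const_mul _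
      calc Li n F c χ (fun q t => C' *
            ((T * yF n F q t ^ 2 + yF n F q t) * Helper23.YM.pw k T F q t)) t
          ≤ ∫⁻ q, (ENNReal.ofReal (C' * T) *
              ENNReal.ofReal (yF n F q t ^ 2 * Helper23.YM.pw k (2 * T) F q t)
              + ENNReal.ofReal C' * ENNReal.ofReal (yF n F q t *
                Helper23.YM.pw k (2 * T) F q t)) ∂muM n F c χ t := by
            unfold Li
            refine lintegral_mono fun q => ?_
            have h3 := (hsf q _ t3).2.1
            have h4 := pw_mono k hT F q t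
            have h5 := pw_nonneg k (2 * T) F q t
            rw [← ENNReal.ofReal_mul (by positivity), ← ENNReal.ofReal_mul (by positivity),
              ← ENNReal.ofReal_add (by positivity) (by positivity)]
            apply ENNReal.ofReal_le_ofReal
            calc C' * ((T * yF n F q t ^ 2 + yF n F q t) * Helper23.YM.pw k T F q t)
                ≤ C' * ((T * yF n F q t ^ 2 + yF n F q t) * Helper23.YM.pw k (2 * T) F q t) := by
                  gcongr
              _ = C' * T * (yF n F q t ^ 2 * Helper23.YM.pw k (2 * T) F q t)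
                  + C' * (yF n F q t * Helper23.YM.pw k (2 * T) F q t) := by ring
        _ = ENNReal.ofReal (C' * T) * Li n F c χ (fun q t => yF n F q t ^ 2 *
                Helper23.YM.pw k (2 * T) F q t) t
            + ENNReal.ofReal C' * Li n F c χ (fun q t => yF n F q t *
                Helper23.YM.pw k (2 * T) F q t) t := by
            rw [lintegral_add_left hmeas, lintegral_const_mul' _ _ ENNReal.ofReal_ne_top,
              lintegral_const_mul' _ _ ENNReal.ofReal_ne_top]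
            rfl
        _ ≤ ENNReal.ofReal (C' * T) * ENNReal.ofReal (C₁ * Real.sqrt (2 * T) ^ n / (2 * T) ^ 2)
            + ENNReal.ofReal C' * ENNReal.ofReal (C₁ * Real.sqrt (2 * T) ^ n / (2 * T)) := by
            gcongr
        _ = ENNReal.ofReal (C' * (C₁ * Real.sqrt (2 * T) ^ n) * (3 / (4 * T))) := by
            rw [← ENNReal.ofReal_mul (by positivity), ← ENNReal.ofReal_mul (by positivity),
              ← ENNReal.ofReal_add (by positivity) (by positivity)]
            congr 1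
            field_simp
            ring
    have hr2 : ∫⁻ t in Icc (-(2 * T)) (-T), Li n F c χ (fun q t => C' *
        ((T * yF n F q t ^ 2 + yF n F q t) * Helper23.YM.pw k T F q t)) t
        ≤ ENNReal.ofReal (C' * (C₁ * Real.sqrt (2 * T) ^ n) * (3 / 4)) := by
      refine (setLIntegral_mono' measurableSet_Icc hr).trans ?_
      rw [setLIntegral_const, Real.volume_Icc, ← ENNReal.ofReal_mul (by positivity)]
      apply ENNReal.ofReal_le_ofReal
      apply le_of_eq
      field_simp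
      ring
    -- the left side
    have hd : ENNReal.ofReal (2 * T) * ∫⁻ t in Icc (-(2 * T)) (-T), Li n F c χ
        (fun q t => Helper23.YM.g2F n F q t * Helper23.YM.pw k T F q t) t
        ≤ ∫⁻ t in Icc (-(2 * T)) (-T), Li n F c χ
          (fun q t => 2 * ((-t) * (Helper23.YM.g2F n F q t * Helper23.YM.pw k T F q t))
      + 1 / 2 * ((-t) * (AA (n := n) F q t * (yF n F q t * Helper23.YM.pw k T F q t)))) t := by
      rw [← lintegral_const_mul' _ _ ENNReal.ofReal_ne_top]
      refine setLIntegral_mono' measurableSet_Icc fun t ht => ?_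
      obtain ⟨t1, t2, t3⟩ := hpt t ht
      unfold Li
      rw [← lintegral_const_mul' _ _ ENNReal.ofReal_ne_top]
      refine lintegral_mono fun q => ?_
      rw [← ENNReal.ofReal_mul (by linarith)]
      apply ENNReal.ofReal_le_ofReal
      have g1 := (hg q t t3).1
      have g2 := pw_nonneg k T F q t
      have g3 := (hsf q _ t3).1
      have g4 := (hsf q _ t3).2.1
      have g5 : 0 ≤ -t := by linarith
      have g6 : 0 ≤ Helper23.YM.g2F n F q t * Helper23.YM.pw k T F q t := mul_nonneg g1 g2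
      have g7 : 0 ≤ 1 / 2 * ((-t) * (AA (n := n) F q t * (yF n F q t *
          Helper23.YM.pw k T F q t))) := by positivity
      have g8 : T * (Helper23.YM.g2F n F q t * Helper23.YM.pw k T F q t)
          ≤ (-t) * (Helper23.YM.g2F n F q t * Helper23.YM.pw k T F q t) :=
        mul_le_mul_of_nonneg_right t1 g6
      linarith
    have hfin : ENNReal.ofReal (2 * T) * ∫⁻ t in Icc (-(2 * T)) (-T), Li n F c χ
        (fun q t => Helper23.YM.g2F n F q t * Helper23.YM.pw k T F q t) t
        ≤ ENNReal.ofReal (C₁ * Real.sqrt (2 * T) ^ n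
          + C' * (C₁ * Real.sqrt (2 * T) ^ n) * (3 / 4)) := by
      rw [ENNReal.ofReal_add (by positivity) (by positivity)]
      exact hd.trans ((le_add_self).trans (main.trans (add_le_add h0 hr2)))
    calc ∫⁻ t in Icc (-(2 * T)) (-T), Li n F c χ
          (fun q t => Helper23.YM.g2F n F q t * Helper23.YM.pw k T F q t) t
        = ENNReal.ofReal (1 / (2 * T)) * (ENNReal.ofReal (2 * T) *
          ∫⁻ t in Icc (-(2 * T)) (-T), Li n F c χ
          (fun q t => Helper23.YM.g2F n F q t * Helper23.YM.pw k T F q t) t) := by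
          rw [← mul_assoc, ← ENNReal.ofReal_mul (by positivity)]
          have e : 1 / (2 * T) * (2 * T) = 1 := by field_simp
          rw [e, ENNReal.ofReal_one, one_mul]
      _ ≤ ENNReal.ofReal (1 / (2 * T)) * ENNReal.ofReal (C₁ * Real.sqrt (2 * T) ^ n
          + C' * (C₁ * Real.sqrt (2 * T) ^ n) * (3 / 4)) := by gcongr
      _ = ENNReal.ofReal (C₁ * (1 + 3 / 4 * C') * Real.sqrt 2 ^ n / 2 *
          Real.sqrt T ^ n / T) := by
          rw [← ENNReal.ofReal_mul (by positivity), hs2]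
          congr 1
          field_simp
  · -- the pointwise hypotheses of WI
    intro q t ht
    obtain ⟨t1, t2, t3⟩ := hpt t ht
    obtain ⟨hA, hY, -, hz, hzx, hh, -, -⟩ := hsf q t t3
    have g1 := (hg q t t3).1
    have g2 := pw_nonneg k T F q t
    have g5 : 0 ≤ -t := by linarith
    have eb : b0 k T t (‖F q t‖ ^ 2) = Helper23.YM.pw k T F q t := rfl
    refine ⟨by positivity, by positivity, ?_, ?_⟩
    · have h := scal n k (T := T) (τ := -t) (g := Helper23.YM.g2F n F q t) hT t1 t2 hz hzx hY hA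
        (hAle q t t3) hh t
      rw [eb, ← hC'] at h
      unfold LB
      rw [eb]
      exact h
    · rw [eb, zero_mul, add_zero]
      have g6 : 0 ≤ (-t) * (Helper23.YM.g2F n F q t * Helper23.YM.pw k T F q t) := by positivity
      have e : 1 / 2 * (yF n F q t * ((-t) * AA (n := n) F q t * Helper23.YM.pw k T F q t))
          = 1 / 2 * ((-t) * (AA (n := n) F q t * (yF n F q t * Helper23.YM.pw k T F q t))) := by
        ring
      rw [e]
      linarith
  · -- integrability
    have hfin : ∀ t ∈ Icc (-(2 * T)) (-T), Li n F c χ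
        (fun q t => (1 + ‖F q t‖ ^ 2) * ((-t) * AA (n := n) F q t *
          b0 k T t (‖F q t‖ ^ 2))) t
        ≤ ENNReal.ofReal (4 * T * (1 + T)) *
          ENNReal.ofReal (C₂ * Real.sqrt (2 * T) ^ n / (2 * T)) := by
      intro t ht
      obtain ⟨t1, t2, t3⟩ := hpt t ht
      obtain ⟨-, k1, -, -⟩ := hYT1 t ht.1 t3
      calc Li n F c χ (fun q t => (1 + ‖F q t‖ ^ 2) * ((-t) * AA (n := n) F q t *
            b0 k T t (‖F q t‖ ^ 2))) t
          ≤ ∫⁻ q, ENNReal.ofReal (4 * T * (1 + T)) * ENNReal.ofReal (yF n F q t *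
              Helper23.YM.pw (k - 1) (2 * T) F q t) ∂muM n F c χ t := by
            unfold Li
            refine lintegral_mono fun q => ?_
            rw [← ENNReal.ofReal_mul (by positivity)]
            apply ENNReal.ofReal_le_ofReal
            have eb : b0 k T t (‖F q t‖ ^ 2) = Helper23.YM.pw k T F q t := rfl
            have h2 := hAle q _ t3
            have h3 := (hsf q _ t3).1
            have h4 := (pw_step k (by omega) hT F q t).trans
              (mul_le_mul_of_nonneg_left (pw_mono (k - 1) hT F q t) (by positivity))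
            have h5 : (-t) * AA (n := n) F q t ≤ 2 * T * yF n F q t :=
              mul_le_mul t2 h2 h3 (by linarith)
            have h6 : 0 ≤ (1 + ‖F q t‖ ^ 2) * Helper23.YM.pw k T F q t :=
              mul_nonneg (by positivity) (pw_nonneg k T F q t)
            have h7 : 0 ≤ 2 * T * yF n F q t := by
              have := (hsf q _ t3).2.1
              positivity
            beta_reduce
            rw [eb]
            calc (1 + ‖F q t‖ ^ 2) * ((-t) * AA (n := n) F q t * Helper23.YM.pw k T F q t)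
                = ((-t) * AA (n := n) F q t) * ((1 + ‖F q t‖ ^ 2) *
                  Helper23.YM.pw k T F q t) := by ring
              _ ≤ (2 * T * yF n F q t) * (2 * (1 + T) *
                  Helper23.YM.pw (k - 1) (2 * T) F q t) := mul_le_mul h5 h4 h6 h7
              _ = 4 * T * (1 + T) * (yF n F q t *
                  Helper23.YM.pw (k - 1) (2 * T) F q t) := by ring
        _ = ENNReal.ofReal (4 * T * (1 + T)) * Li n F c χ (fun q t => yF n F q t *
              Helper23.YM.pw (k - 1) (2 * T) F q t) t :=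
            lintegral_const_mul' _ _ ENNReal.ofReal_ne_top
        _ ≤ _ := by gcongr
    refine ne_top_of_le_ne_top ?_ (setLIntegral_mono' measurableSet_Icc hfin)
    rw [setLIntegral_const]
    exact ENNReal.mul_ne_top (ENNReal.mul_ne_top ENNReal.ofReal_ne_top ENNReal.ofReal_ne_top)
      (by simp)

end Pool.Agent.Helper88.YM
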